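import Pool.Agent.H43.G.R_seed8.Y957.VK.Stm
import Pool.Agent.H43.G.R_seed8.Y957.AD.Spec

/-!
Project VK, second part: from the twisted sums of the Moebius function to almost every dilate of every bounded
sequence.  Definitions and statements.
-/

set_option autoImplicit false

namespace Pool.Agent.Y957.VK

open Finset MeasureTheory Filter Topology
open scoped ENNReal
open Pool.Agent.H376R2.MR (er)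
open Pool.Agent.Y957.AD (PolyVar)

/-- the sums twisted by `n^{iτ}`, `|τ| ≤ N^A`, are small in mean square over a parameter -/
def NegF {Ω : Type} [MeasurableSpace Ω] (m : Measure Ω) (g : Ω → ℕ → ℂ) : Prop :=
  ∀ A K : ℕ, ∃ C : ℝ, 0 ≤ C ∧ ∀ (N : ℕ) (τ : ℝ), 2 ≤ N → |τ| ≤ (N : ℝ) ^ A →
    ∫⁻ ω, ‖∑ n ∈ Finset.Icc 1 N, g ω n * er τ (Real.log n)‖ₑ ^ 2 ∂m ≤
      ENNReal.ofReal (C * N ^ 2 / (Real.log N) ^ K)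

/-- the same for one sequence -/
def Neg (g : ℕ → ℂ) : Prop := ∀ A K : ℕ, ∃ C : ℝ, ∀ (N : ℕ) (τ : ℝ), 2 ≤ N → |τ| ≤ (N : ℝ) ^ A →
  ‖∑ n ∈ Finset.Icc 1 N, g n * er τ (Real.log n)‖ ≤ C * N / (Real.log N) ^ K

/-- the window function -/
noncomputable def Bw (A : ℝ → ℂ) (b L y : ℝ) : ℂ := if y ∈ Set.Icc 0 L then A (Real.exp (b + y)) else 0

/-- `∑_{n ≤ N} d n e^{i ξ c log n}` -/
noncomputable def Dn (d : ℕ → ℂ) (c : ℝ) (N : ℕ) (ξ : ℝ) : ℂ :=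
  ∑ n ∈ Finset.Icc 1 N, d n * er ξ (c * Real.log n)

/-- `∑_{n ≤ N} d n B (u + c log n)` -/
noncomputable def Gn (d : ℕ → ℂ) (B : ℝ → ℂ) (c : ℝ) (N : ℕ) (u : ℝ) : ℂ :=
  ∑ n ∈ Finset.Icc 1 N, d n * B (u + c * Real.log n)

/-- (E0) the Plancherel step (proved by helper957 in `Pool/Agent/Y957/VK/E1.lean`) -/
def S_PLANCH : Prop := ∀ (Ω : Type) [MeasurableSpace Ω] (m : Measure Ω) [IsFiniteMeasure m] (d : Ω → ℕ → ℂ),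
  (∀ n, Measurable fun ω => d ω n) → (∀ ω n, ‖d ω n‖ ≤ 1) → ∀ B : ℝ → ℂ, Measurable B → (∀ y, ‖B y‖ ≤ 1) →
  ∀ L V T S c : ℝ, 0 ≤ L → (∀ y, y ∉ Set.Icc 0 L → B y = 0) →
  (∀ s, 0 ≤ s → s ≤ 1 → ∫ y, ‖B (y + s) - B y‖ ≤ V * s) → 1 ≤ T → 0 ≤ S → ∀ N : ℕ,
  (∀ ξ : ℝ, |ξ| ≤ 2 * Real.pi * T → ∫⁻ ω, ‖Dn (d ω) c N ξ‖ₑ ^ 2 ∂m ≤ ENNReal.ofReal S) →
    ∫⁻ ω, (∫⁻ u, ‖Gn (d ω) B c N u‖ₑ ^ 2) ∂m ≤
      ENNReal.ofReal (L * S + (m.real Set.univ * N ^ 2) * V ^ 2 / 8 / T)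

/-- (E1) variation of the window function -/
def S_WIN : Prop := ∀ (A : ℝ → ℂ) (b : ℝ), (∀ x, ‖A x‖ ≤ 1) → Measurable A → PolyVar A →
  ∃ C D : ℝ, 0 ≤ C ∧ 0 ≤ D ∧ ∀ L s : ℝ, 0 ≤ L → 0 ≤ s → s ≤ 1 →
    ∫ y, ‖Bw A b L (y + s) - Bw A b L y‖ ≤ C * Real.exp (D * L) * s

/-- (E2) one more factor -/
def S_STEP : Prop := ∀ (Ω : Type) [MeasurableSpace Ω] (m : Measure Ω) [IsFiniteMeasure m] (g : Ω → ℕ → ℂ),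
  (∀ n, Measurable fun ω => g ω n) → (∀ ω n, ‖g ω n‖ ≤ 1) → NegF m g →
  ∀ A : ℝ → ℂ, (∀ x, ‖A x‖ ≤ 1) → Measurable A → PolyVar A → ∀ b c : ℝ, 0 < c →
    NegF (m.prod (volume.restrict (Set.Icc (0 : ℝ) 1)))
      (fun p n => g p.1 n * A (Real.exp (b + p.2) * (n : ℝ) ^ c))

/-- (E3) from the mean square to almost every parameter -/
def S_BC : Prop := ∀ (Ω : Type) [MeasurableSpace Ω] (m : Measure Ω) [IsFiniteMeasure m] (g : Ω → ℕ → ℂ),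
  (∀ n, Measurable fun ω => g ω n) → (∀ ω n, ‖g ω n‖ ≤ 1) → NegF m g →
  ∀ᵐ ω ∂m, ∀ K : ℕ, Tendsto (fun N : ℕ => (Real.log N) ^ K / N * ‖∑ n ∈ Finset.Icc 1 N, g ω n‖) atTop (𝓝 0)

/-- (E4) several factors -/
def S_PI : Prop := ∀ g : ℕ → ℂ, (∀ n, ‖g n‖ ≤ 1) → Neg g → ∀ (k : ℕ) (A : Fin k → ℝ → ℂ),
  (∀ i x, ‖A i x‖ ≤ 1) → (∀ i, Measurable (A i)) → (∀ i, PolyVar (A i)) → ∀ b c : Fin k → ℝ, (∀ i, 0 < c i) →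
    NegF (Measure.pi fun _ : Fin k => (volume : Measure ℝ).restrict (Set.Icc (0 : ℝ) 1))
      (fun ω n => g n * ∏ i, A i (Real.exp (b i + ω i) * (n : ℝ) ^ (c i)))

/-- (E5) almost every tuple of dilations -/
def S_ALL : Prop := ∀ g : ℕ → ℂ, (∀ n, ‖g n‖ ≤ 1) → Neg g → ∀ (k : ℕ) (A : Fin k → ℝ → ℂ),
  (∀ i x, ‖A i x‖ ≤ 1) → (∀ i, Measurable (A i)) → (∀ i, PolyVar (A i)) → ∀ c : Fin k → ℝ, (∀ i, 0 < c i) →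
    ∀ᵐ α ∂((volume : Measure (Fin k → ℝ)).restrict {α | ∀ i, 0 < α i}), ∀ K : ℕ,
      Tendsto (fun N : ℕ => (Real.log N) ^ K / N *
        ‖∑ n ∈ Finset.Icc 1 N, g n * ∏ i, A i (α i * (n : ℝ) ^ (c i))‖) atTop (𝓝 0)

/-- (E6) bounded sequences -/
def S_SEQ2 : Prop := ∀ g : ℕ → ℂ, (∀ n, ‖g n‖ ≤ 1) → Neg g → ∀ (k : ℕ) (a : Fin k → ℕ → ℂ) (M : ℝ),
  (∀ i n, ‖a i n‖ ≤ M) → ∀ c : Fin k → ℝ, (∀ i, 0 < c i) →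
    ∀ᵐ α ∂((volume : Measure (Fin k → ℝ)).restrict {α | ∀ i, 0 < α i}), ∀ K : ℕ,
      Tendsto (fun N : ℕ => (Real.log N) ^ K / N *
        ‖∑ n ∈ Finset.Icc 1 N, g n * ∏ i, a i ⌊α i * (n : ℝ) ^ (c i)⌋₊‖) atTop (𝓝 0)

/-- (E7) uniformly continuous functions, one factor -/
def S_UC2 : Prop := ∀ g : ℕ → ℂ, (∀ n, ‖g n‖ ≤ 1) → Neg g → ∀ (A : ℝ → ℂ) (M : ℝ), (∀ t, ‖A t‖ ≤ M) →
  (∀ ε : ℝ, 0 < ε → ∃ δ : ℝ, 0 < δ ∧ ∀ t s : ℝ, 0 ≤ s → s < δ → ‖A (t + s) - A t‖ ≤ ε) → ∀ c : ℝ, 0 < c →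
    ∀ᵐ α : ℝ, Tendsto (fun N : ℕ => (1 / (N : ℂ)) * ∑ n ∈ Finset.Icc 1 N, g n * A (α * (n : ℝ) ^ c))
      atTop (𝓝 0)

/-- (14) twisted sums of the von Mangoldt function -/
def S_LAM : Prop := ∀ A K : ℕ, ∃ C : ℝ, ∀ (N : ℕ) (τ : ℝ), 2 ≤ N → |τ| ≤ (N : ℝ) ^ A →
  ‖∑ n ∈ Finset.Icc 1 N, ((ArithmeticFunction.vonMangoldt n : ℂ) - 1) * (n : ℂ) ^ (-(τ : ℂ) * Complex.I)‖ ≤
    C * N / (Real.log N) ^ K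

end Pool.Agent.Y957.VK
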